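import Pool.Agent.Lib.MP_0da313_nt.NC.Wy.Main

set_option autoImplicit false

/-!
Project NC, Weyl sums with a weight of bounded variation.
-/

namespace Pool.Agent.NC.Wy

open Finset Polynomial Filter
open Pool.Agent.SP80 (ex mn)

theorem abel (z : ℕ → ℂ) (h : ℕ → ℝ) (V M : ℝ) (Y u : ℕ) (hu : u ≤ Y)
    (hz : ∀ v ≤ Y, ‖∑ y ∈ range v, z y‖ ≤ M) (h0 : |h 0| ≤ V)
    (hV : ∑ y ∈ range Y, |h (y + 1) - h y| ≤ V) :
    ‖∑ y ∈ range u, (h y : ℂ) * z y‖ ≤ 3 * V * M := by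
  have hV0 : 0 ≤ V := (abs_nonneg _).trans h0
  have hM0 : 0 ≤ M := by
    have := hz 0 (Nat.zero_le _)
    simpa using this
  rcases Nat.eq_zero_or_pos u with hu0 | hu0
  · subst hu0
    simp only [range_zero, sum_empty, norm_zero]
    positivity
  have hsub : ∀ v ≤ Y, ∑ y ∈ range v, |h (y + 1) - h y| ≤ V := by
    intro v hv
    refine le_trans (Finset.sum_le_sum_of_subset_of_nonneg (Finset.range_subset_range.2 hv)
      fun _ _ _ => abs_nonneg _) hV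
  have hh : ∀ v ≤ Y, |h v| ≤ 2 * V := by
    intro v hv
    have e1 : h v = h 0 + ∑ y ∈ range v, (h (y + 1) - h y) := by
      rw [Finset.sum_range_sub]
      ring
    rw [e1]
    refine (abs_add_le _ _).trans ?_
    have e2 := (Finset.abs_sum_le_sum_abs (fun y => h (y + 1) - h y) (range v)).trans (hsub v hv)
    linarith
  have e1 := Finset.sum_range_by_parts (fun y => (h y : ℂ)) z u
  simp only [smul_eq_mul] at e1
  rw [e1]
  refine (norm_sub_le _ _).trans ?_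
  have e2 : ‖(h (u - 1) : ℂ) * ∑ i ∈ range u, z i‖ ≤ 2 * V * M := by
    rw [norm_mul, Complex.norm_real]
    exact mul_le_mul (hh (u - 1) (by omega)) (hz u hu) (norm_nonneg _) (by positivity)
  have e3 : ‖∑ i ∈ range (u - 1), ((h (i + 1) : ℂ) - (h i : ℂ)) * ∑ j ∈ range (i + 1), z j‖ ≤
      V * M := by
    refine (norm_sum_le _ _).trans ?_
    have e4 : ∀ i ∈ range (u - 1), ‖((h (i + 1) : ℂ) - (h i : ℂ)) * ∑ j ∈ range (i + 1), z j‖ ≤
        |h (i + 1) - h i| * M := by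
      intro i hi
      rw [Finset.mem_range] at hi
      rw [norm_mul, ← Complex.ofReal_sub, Complex.norm_real]
      exact mul_le_mul_of_nonneg_left (hz (i + 1) (by omega)) (norm_nonneg _)
    refine (Finset.sum_le_sum e4).trans ?_
    rw [← Finset.sum_mul]
    exact mul_le_mul_of_nonneg_right (hsub (u - 1) (by omega)) hM0
  linarith

/-- Weyl's inequality with a weight. -/
theorem weyl_window (d A : ℕ) (hd : 2 ≤ d) : ∃ B : ℕ, ∀ᶠ Y : ℕ in atTop,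
    ∀ (f : ℝ[X]) (l : ℕ) (b : ℤ), f.natDegree ≤ d → 0 < l → IsCoprime b (l : ℤ) →
    (Real.log Y) ^ B ≤ l → l * (Real.log Y) ^ B ≤ (Y : ℝ) ^ d →
    |(d.factorial : ℝ) * f.coeff d - b / l| ≤ 1 / (l : ℝ) ^ 2 →
    ∀ (h : ℕ → ℝ) (V : ℝ), |h 0| ≤ V → ∑ y ∈ range Y, |h (y + 1) - h y| ≤ V →
    ∀ u ≤ Y, ‖∑ y ∈ range u, (h y : ℂ) * ex (f.eval (y : ℝ))‖ ≤
      3 * V * (Y / (Real.log Y) ^ A) := by
  obtain ⟨B, hB⟩ := weyl d A hd
  refine ⟨B, hB.mono fun Y hY f l b h1 h2 h3 h4 h5 h6 h V h7 h8 u hu => ?_⟩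
  exact abel (fun y => ex (f.eval (y : ℝ))) h V _ Y u hu (hY f l b h1 h2 h3 h4 h5 h6) h7 h8

end Pool.Agent.NC.Wy
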