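import Pool.Agent.Lib.MP_0da313_nt.NC.Wy.Diff

set_option autoImplicit false

/-!
Project NC, Weyl sums: Weyl's inequality with a saving of a power of the logarithm.
-/

namespace Pool.Agent.NC.Wy

open Finset Polynomial Filter
open Pool.Agent.SP80 (ex mn)

theorem RR_le_pow (k Y : ℕ) : ∀ x : ℝ, RR k Y x ≤ (Y : ℝ) ^ (k + 1) := by
  induction k with
  | zero =>
    intro x
    rw [zero_add, pow_one]
    exact mn_le _ _
  | succ k ih =>
    intro x
    have h1 : RR (k + 1) Y x = ∑ h ∈ range Y, RR k Y (h * x) := rfl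
    rw [h1]
    refine (Finset.sum_le_sum fun h _ => ih _).trans (le_of_eq ?_)
    rw [Finset.sum_const, card_range, nsmul_eq_mul, pow_succ (Y : ℝ) (k + 1), mul_comm]

theorem RR_le (k Y : ℕ) (hY : 1 ≤ Y) : ∀ x : ℝ, RR k Y x ≤ k * (Y : ℝ) ^ k +
    ∑ m ∈ Icc 1 (Y ^ k), (tk k m : ℝ) * mn Y (m * x) := by
  induction k with
  | zero =>
    intro x
    simp [RR, tk]
  | succ k ih =>
    intro x
    have hY0 : (0 : ℝ) ≤ Y := Nat.cast_nonneg Y
    have h1 : RR (k + 1) Y x = RR k Y ((0 : ℕ) * x) + ∑ h ∈ Ico 1 Y, RR k Y (h * x) := by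
      have e1 : RR (k + 1) Y x = ∑ h ∈ range Y, RR k Y (h * x) := rfl
      rw [e1, Finset.range_eq_Ico, Finset.sum_eq_sum_Ico_succ_bot (by omega)]
    have h2 : ∑ h ∈ Ico 1 Y, RR k Y (h * x) ≤ k * (Y : ℝ) ^ (k + 1) +
        ∑ h ∈ Ico 1 Y, ∑ n ∈ Icc 1 (Y ^ k), (tk k n : ℝ) * mn Y (((h * n : ℕ) : ℝ) * x) := by
      refine (Finset.sum_le_sum fun h _ => ih _).trans ?_
      rw [Finset.sum_add_distrib, Finset.sum_const, nsmul_eq_mul]
      apply add_le_add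
      · have e1 : ((#(Ico 1 Y) : ℕ) : ℝ) ≤ Y := by
          rw [Nat.card_Ico]
          exact_mod_cast Nat.sub_le _ _
        calc ((#(Ico 1 Y) : ℕ) : ℝ) * (k * (Y : ℝ) ^ k) ≤ Y * (k * (Y : ℝ) ^ k) :=
              mul_le_mul_of_nonneg_right e1 (by positivity)
          _ = _ := by ring
      · refine Finset.sum_le_sum fun h _ => Finset.sum_le_sum fun n _ => le_of_eq ?_
        congr 2
        push_cast
        ring
    have h3 : ∑ h ∈ Ico 1 Y, ∑ n ∈ Icc 1 (Y ^ k), (tk k n : ℝ) * mn Y (((h * n : ℕ) : ℝ) * x) ≤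
        ∑ m ∈ Icc 1 (Y ^ (k + 1)), (tk (k + 1) m : ℝ) * mn Y (m * x) := by
      have e1 : ∀ m ∈ Icc 1 (Y ^ (k + 1)), (tk (k + 1) m : ℝ) * mn Y (m * x) =
          ∑ d ∈ m.divisors, (tk k (m / d) : ℝ) * mn Y (m * x) := by
        intro m _
        have e0 : tk (k + 1) m = ∑ d ∈ m.divisors, tk k (m / d) := rfl
        rw [← Finset.sum_mul, e0, Nat.cast_sum]
      rw [Finset.sum_congr rfl e1, ← Finset.sum_product', Finset.sum_sigma']
      have hinj : Set.InjOn (fun p : ℕ × ℕ => (⟨p.1 * p.2, p.1⟩ : (_ : ℕ) × ℕ))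
          ((Ico 1 Y ×ˢ Icc 1 (Y ^ k) : Finset (ℕ × ℕ)) : Set (ℕ × ℕ)) := by
        intro p hp q hq h
        rw [Finset.mem_coe, Finset.mem_product, Finset.mem_Ico] at hp hq
        simp only [Sigma.mk.injEq, heq_eq_eq] at h
        have e2 : p.2 = q.2 := by
          have e3 := h.1
          rw [h.2] at e3
          exact Nat.eq_of_mul_eq_mul_left (by omega) e3
        exact Prod.ext h.2 e2
      have e2 : ∑ p ∈ Ico 1 Y ×ˢ Icc 1 (Y ^ k), (tk k p.2 : ℝ) * mn Y (((p.1 * p.2 : ℕ) : ℝ) * x) =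
          ∑ q ∈ (Ico 1 Y ×ˢ Icc 1 (Y ^ k)).image
            (fun p : ℕ × ℕ => (⟨p.1 * p.2, p.1⟩ : (_ : ℕ) × ℕ)),
            (tk k (q.1 / q.2) : ℝ) * mn Y (q.1 * x) := by
        rw [Finset.sum_image hinj]
        refine Finset.sum_congr rfl fun p hp => ?_
        rw [Finset.mem_product, Finset.mem_Ico] at hp
        simp only
        rw [Nat.mul_div_cancel_left _ (by omega)]
      rw [e2]
      apply Finset.sum_le_sum_of_subset_of_nonneg
      · intro q hq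
        obtain ⟨p, hp, rfl⟩ := Finset.mem_image.1 hq
        rw [Finset.mem_product, Finset.mem_Ico, Finset.mem_Icc] at hp
        obtain ⟨⟨p1, p2⟩, p3, p4⟩ := hp
        rw [Finset.mem_sigma, Finset.mem_Icc, Nat.mem_divisors]
        simp only
        refine ⟨⟨Nat.mul_pos p1 p3, ?_⟩, Dvd.intro _ rfl, by positivity⟩
        calc p.1 * p.2 ≤ Y * Y ^ k := Nat.mul_le_mul p2.le p4
          _ = Y ^ (k + 1) := by ring
      · intro q _ _
        exact mul_nonneg (Nat.cast_nonneg _) (mn_nonneg hY0 _)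
    have h4 := RR_le_pow k Y ((0 : ℕ) * x)
    rw [h1]
    push_cast
    have h5 : ((k : ℝ) + 1) * (Y : ℝ) ^ (k + 1) = k * (Y : ℝ) ^ (k + 1) + (Y : ℝ) ^ (k + 1) := by
      ring
    rw [h5]
    push_cast at h2 h3 h4
    linarith

/-- Cauchy's inequality. -/
theorem sum_tk_mn (k Y l : ℕ) (hY : 1 ≤ Y) (x : ℝ) (b : ℤ) (hl : 0 < l) (hb : IsCoprime b (l : ℤ))
    (hx : |x - b / l| ≤ 1 / (l : ℝ) ^ 2) :
    (∑ m ∈ Icc 1 (Y ^ k), (tk k m : ℝ) * mn Y (m * x)) ^ 2 ≤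
      ((Y : ℝ) ^ k * (1 + k * Real.log Y) ^ (k * k)) *
        (Y * (6 * ((Y : ℝ) ^ k / l + 1) * (Y + l * (1 + Real.log l)))) := by
  have hY0 : (0 : ℝ) ≤ Y := Nat.cast_nonneg Y
  have h1 := Finset.sum_mul_sq_le_sq_mul_sq (Icc 1 (Y ^ k)) (fun m => (tk k m : ℝ))
    (fun m => mn Y (m * x))
  refine h1.trans ?_
  have h2 := tk_sq k (Y ^ k) (Nat.one_le_pow _ _ hY)
  have h3 : ∑ m ∈ Icc 1 (Y ^ k), mn Y (m * x) ^ 2 ≤
      Y * (6 * ((Y : ℝ) ^ k / l + 1) * (Y + l * (1 + Real.log l))) := by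
    have h4 := SP80.sw3 x b l (Y ^ k) Y hl hb hx hY0
    push_cast at h4
    calc ∑ m ∈ Icc 1 (Y ^ k), mn Y (m * x) ^ 2 ≤ ∑ m ∈ Icc 1 (Y ^ k), Y * mn Y (m * x) := by
          refine Finset.sum_le_sum fun m _ => ?_
          rw [sq]
          exact mul_le_mul_of_nonneg_right (mn_le _ _) (mn_nonneg hY0 _)
      _ = Y * ∑ m ∈ Icc 1 (Y ^ k), mn Y (m * x) := by rw [Finset.mul_sum]
      _ ≤ _ := mul_le_mul_of_nonneg_left h4 hY0
  push_cast [Real.log_pow] at h2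
  exact mul_le_mul h2 h3 (Finset.sum_nonneg fun m _ => sq_nonneg _)
    (le_trans (Finset.sum_nonneg fun m _ => sq_nonneg _) h2)

theorem pow_log_le (B : ℕ) : ∀ᶠ Y : ℕ in atTop, Real.log Y ^ B ≤ (Y : ℝ) := by
  have h1 := (isLittleO_log_rpow_rpow_atTop (B : ℝ) (by norm_num : (0 : ℝ) < 1)).bound
    (by norm_num : (0 : ℝ) < 1)
  have h2 := (tendsto_natCast_atTop_atTop (R := ℝ)).eventually h1
  filter_upwards [h2, eventually_ge_atTop 1] with N h3 h4
  have hN : (1 : ℝ) ≤ N := by exact_mod_cast h4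
  have hL : 0 ≤ Real.log N := Real.log_nonneg hN
  rw [Real.rpow_natCast, Real.norm_of_nonneg (pow_nonneg hL B), Real.rpow_one, one_mul,
    Real.norm_of_nonneg (by linarith)] at h3
  exact h3

/-- Weyl's inequality. -/
theorem weyl (d A : ℕ) (hd : 2 ≤ d) : ∃ B : ℕ, ∀ᶠ Y : ℕ in atTop, ∀ (f : ℝ[X]) (l : ℕ) (b : ℤ),
    f.natDegree ≤ d → 0 < l → IsCoprime b (l : ℤ) → (Real.log Y) ^ B ≤ l →
    l * (Real.log Y) ^ B ≤ (Y : ℝ) ^ d → |(d.factorial : ℝ) * f.coeff d - b / l| ≤ 1 / (l : ℝ) ^ 2 →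
    ∀ u ≤ Y, ‖∑ y ∈ range u, ex (f.eval (y : ℝ))‖ ≤ Y / (Real.log Y) ^ A := by
  obtain ⟨k, rfl⟩ : ∃ k, d = k + 1 := ⟨d - 1, by omega⟩
  have hk : 1 ≤ k := by omega
  set M : ℕ := A * 2 ^ k + 1 with hM
  set B : ℕ := k * k + 1 + 2 * M with hB
  set C1 : ℝ := 24 * (k + 2) * (k + 1) ^ (k * k) with hC1
  have hC1' : 1 ≤ C1 := by
    have e1 : (1 : ℝ) ≤ ((k : ℝ) + 1) ^ (k * k) := one_le_pow₀ (by
      have : (0 : ℝ) ≤ k := Nat.cast_nonneg k
      linarith)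
    have e2 : (0 : ℝ) ≤ k := Nat.cast_nonneg k
    rw [hC1]
    nlinarith
  refine ⟨B, ?_⟩
  have hcast : Tendsto (fun n : ℕ => (n : ℝ)) atTop atTop := tendsto_natCast_atTop_atTop
  have hlogt : Tendsto (fun N : ℕ => Real.log N) atTop atTop := Real.tendsto_log_atTop.comp hcast
  filter_upwards [pow_log_le B, hlogt.eventually (eventually_ge_atTop
    (max 1 (2 ^ (2 ^ k - 1) * (k + C1)))), eventually_ge_atTop 1] with Y h1 h2 h3
  intro f l b hf hl hb hl1 hl2 hx u hu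
  have hL1 : 1 ≤ Real.log Y := le_trans (le_max_left _ _) h2
  have hL2 : 2 ^ (2 ^ k - 1) * (k + C1) ≤ Real.log Y := le_trans (le_max_right _ _) h2
  set L : ℝ := Real.log Y with hL
  have hY1 : (1 : ℝ) ≤ Y := by exact_mod_cast h3
  have hY0 : (0 : ℝ) < Y := by linarith
  have hL0 : 0 < L := by linarith
  have hl0 : (0 : ℝ) < l := by exact_mod_cast hl
  have hl1' : (1 : ℝ) ≤ l := by exact_mod_cast hl
  have hP : 0 < L ^ B := by positivity
  have hP1 : 1 ≤ L ^ B := one_le_pow₀ hL1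
  -- the sum over `m`
  set S : ℝ := ∑ m ∈ Icc 1 (Y ^ k), (tk k m : ℝ) *
    mn Y (m * (((k + 1).factorial : ℝ) * f.coeff (k + 1))) with hS
  have hS0 : 0 ≤ S := Finset.sum_nonneg fun m _ =>
    mul_nonneg (Nat.cast_nonneg _) (mn_nonneg hY0.le _)
  have hlY : (l : ℝ) ≤ (Y : ℝ) ^ (k + 1) := by
    refine le_trans ?_ hl2
    exact le_mul_of_one_le_right hl0.le hP1
  have hlogl : 1 + Real.log l ≤ (k + 2) * L := by
    have e1 : Real.log l ≤ (k + 1) * L := by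
      have := Real.log_le_log hl0 hlY
      rw [Real.log_pow] at this
      push_cast at this
      exact this
    linarith
  have hlogl0 : 0 ≤ Real.log l := Real.log_nonneg hl1'
  have hYP : (Y : ℝ) ^ (k + 1) / L ^ B ≥ 0 := by positivity
  have hq : ((Y : ℝ) ^ k / l + 1) * (Y + l * (1 + Real.log l)) ≤
      4 * (k + 2) * L * ((Y : ℝ) ^ (k + 1) / L ^ B) := by
    have e1 : (Y : ℝ) + l * (1 + Real.log l) ≤ (k + 2) * L * (Y + l) := by
      have e2 : (1 : ℝ) ≤ (k + 2) * L := by linarith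
      nlinarith
    have e2 : ((Y : ℝ) ^ k / l + 1) * (Y + l) = (Y : ℝ) ^ (k + 1) / l + (Y : ℝ) ^ k + Y + l := by
      field_simp
      ring
    have e3 : (Y : ℝ) ^ (k + 1) / l ≤ (Y : ℝ) ^ (k + 1) / L ^ B :=
      div_le_div_of_nonneg_left (by positivity) hP hl1
    have e4 : (Y : ℝ) ^ k ≤ (Y : ℝ) ^ (k + 1) / L ^ B := by
      rw [le_div_iff₀ hP, pow_succ]
      exact mul_le_mul_of_nonneg_left h1 (by positivity)
    have e5 : (Y : ℝ) ≤ (Y : ℝ) ^ (k + 1) / L ^ B := by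
      refine le_trans ?_ e4
      calc (Y : ℝ) = (Y : ℝ) ^ 1 := (pow_one _).symm
        _ ≤ (Y : ℝ) ^ k := pow_le_pow_right₀ hY1 hk
    have e6 : (l : ℝ) ≤ (Y : ℝ) ^ (k + 1) / L ^ B := by
      rw [le_div_iff₀ hP]
      exact hl2
    calc ((Y : ℝ) ^ k / l + 1) * (Y + l * (1 + Real.log l))
        ≤ ((Y : ℝ) ^ k / l + 1) * ((k + 2) * L * (Y + l)) :=
          mul_le_mul_of_nonneg_left e1 (by positivity)
      _ = (k + 2) * L * (((Y : ℝ) ^ k / l + 1) * (Y + l)) := by ring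
      _ ≤ (k + 2) * L * (4 * ((Y : ℝ) ^ (k + 1) / L ^ B)) := by
          apply mul_le_mul_of_nonneg_left _ (by positivity)
          rw [e2]
          linarith
      _ = _ := by ring
  have hSsq : S ^ 2 ≤ (C1 * ((Y : ℝ) ^ (k + 1) / L ^ M)) ^ 2 := by
    have e1 := sum_tk_mn k Y l h3 (((k + 1).factorial : ℝ) * f.coeff (k + 1)) b hl hb hx
    refine e1.trans ?_
    have e2 : (1 + k * L) ^ (k * k) ≤ ((k + 1) * L) ^ (k * k) := by
      apply pow_le_pow_left₀ (by positivity)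
      linarith
    calc ((Y : ℝ) ^ k * (1 + k * L) ^ (k * k)) *
        (Y * (6 * ((Y : ℝ) ^ k / l + 1) * (Y + l * (1 + Real.log l))))
        = 6 * (Y : ℝ) ^ (k + 1) * (1 + k * L) ^ (k * k) *
          (((Y : ℝ) ^ k / l + 1) * (Y + l * (1 + Real.log l))) := by ring
      _ ≤ 6 * (Y : ℝ) ^ (k + 1) * ((k + 1) * L) ^ (k * k) *
          (4 * (k + 2) * L * ((Y : ℝ) ^ (k + 1) / L ^ B)) := by
          apply mul_le_mul _ hq (by positivity) (by positivity)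
          exact mul_le_mul_of_nonneg_left e2 (by positivity)
      _ = C1 * (((Y : ℝ) ^ (k + 1)) ^ 2 * (L ^ (k * k + 1) / L ^ B)) := by
          rw [hC1, mul_pow, pow_succ L (k * k)]
          field_simp
          ring
      _ = C1 * ((Y : ℝ) ^ (k + 1) / L ^ M) ^ 2 := by
          have e3 : L ^ B = L ^ (k * k + 1) * (L ^ M) ^ 2 := by
            rw [hB, ← pow_mul, ← pow_add]
            congr 1
            ring
          rw [e3]
          field_simp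
      _ ≤ C1 ^ 2 * ((Y : ℝ) ^ (k + 1) / L ^ M) ^ 2 := by
          apply mul_le_mul_of_nonneg_right _ (sq_nonneg _)
          nlinarith
      _ = _ := by ring
  have hS1 : S ≤ C1 * ((Y : ℝ) ^ (k + 1) / L ^ M) :=
    (abs_le_of_sq_le_sq' hSsq (by positivity)).2
  have hLM : L ^ M ≤ Y := by
    refine le_trans ?_ h1
    apply pow_le_pow_right₀ hL1
    omega
  have hRR : RR k Y (((k + 1).factorial : ℝ) * f.coeff (k + 1)) ≤
      (k + C1) * ((Y : ℝ) ^ (k + 1) / L ^ M) := by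
    refine (RR_le k Y h3 _).trans ?_
    have e1 : (Y : ℝ) ^ k ≤ (Y : ℝ) ^ (k + 1) / L ^ M := by
      rw [le_div_iff₀ (by positivity), pow_succ]
      exact mul_le_mul_of_nonneg_left hLM (by positivity)
    have e2 : (k : ℝ) * (Y : ℝ) ^ k ≤ k * ((Y : ℝ) ^ (k + 1) / L ^ M) :=
      mul_le_mul_of_nonneg_left e1 (Nat.cast_nonneg k)
    rw [add_mul]
    exact add_le_add e2 hS1
  have hW := weyl_diff k (f.coeff (k + 1)) (fun y => f.eval (y : ℝ)) (wp_poly k f hf) Y u h3 hu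
  have hfin : ‖∑ y ∈ range u, ex (f.eval (y : ℝ))‖ ^ (2 ^ k) ≤ ((Y : ℝ) / L ^ A) ^ (2 ^ k) := by
    refine hW.trans ?_
    have hk2 : k + 1 ≤ 2 ^ k := Nat.lt_two_pow_self
    calc 2 ^ (2 ^ k - 1) * (Y : ℝ) ^ (2 ^ k - (k + 1)) *
        RR k Y (((k + 1).factorial : ℝ) * f.coeff (k + 1))
        ≤ 2 ^ (2 ^ k - 1) * (Y : ℝ) ^ (2 ^ k - (k + 1)) *
          ((k + C1) * ((Y : ℝ) ^ (k + 1) / L ^ M)) :=
          mul_le_mul_of_nonneg_left hRR (by positivity)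
      _ = (2 ^ (2 ^ k - 1) * (k + C1)) * ((Y : ℝ) ^ (2 ^ k) / L ^ M) := by
          have e1 : (Y : ℝ) ^ (2 ^ k) = (Y : ℝ) ^ (2 ^ k - (k + 1)) * (Y : ℝ) ^ (k + 1) := by
            rw [← pow_add]
            congr 1
            omega
          rw [e1]
          ring
      _ ≤ L * ((Y : ℝ) ^ (2 ^ k) / L ^ M) := mul_le_mul_of_nonneg_right hL2 (by positivity)
      _ = ((Y : ℝ) / L ^ A) ^ (2 ^ k) := by
          rw [div_pow, ← pow_mul, hM, pow_succ]
          field_simp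
  exact le_of_pow_le_pow_left₀ (by positivity) (by positivity) hfin

end Pool.Agent.NC.Wy
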