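import Mathlib

set_option autoImplicit false

/-!
Project NC, Weyl sums: the divisor functions `τ_k` and their moments.
-/

namespace Pool.Agent.NC.Wy

open Finset

/-- The number of representations as a product of `k` factors. -/
def tk : ℕ → ℕ → ℕ
  | 0, m => if m = 1 then 1 else 0
  | (k + 1), m => ∑ d ∈ m.divisors, tk k (m / d)

theorem tk_one (k : ℕ) : tk k 1 = 1 := by
  induction k with
  | zero => simp [tk]
  | succ k ih => simp [tk, ih]

/-- Submultiplicativity. -/
theorem tk_mul_le (k : ℕ) : ∀ a b : ℕ, 1 ≤ a → 1 ≤ b → tk k (a * b) ≤ tk k a * tk k b := by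
  induction k with
  | zero =>
    intro a b ha hb
    unfold tk
    by_cases h : a * b = 1
    · have h1 : a = 1 := Nat.eq_one_of_mul_eq_one_right h
      have h2 : b = 1 := Nat.eq_one_of_mul_eq_one_left h
      rw [if_pos h, if_pos h1, if_pos h2]
    · rw [if_neg h]
      exact Nat.zero_le _
  | succ k ih =>
    intro a b ha hb
    unfold tk
    have hab : a * b ≠ 0 := by positivity
    have hex : ∀ d ∈ (a * b).divisors, ∃ d1 d2 : ℕ, d1 ∣ a ∧ d2 ∣ b ∧ d = d1 * d2 := by
      intro d hd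
      obtain ⟨d1, d2, h1, h2, h3⟩ := exists_dvd_and_dvd_of_dvd_mul (Nat.dvd_of_mem_divisors hd)
      exact ⟨d1, d2, h1, h2, h3⟩
    choose! f g hf hg hfg using hex
    have h1 : ∀ d ∈ (a * b).divisors, tk k (a * b / d) ≤ tk k (a / f d) * tk k (b / g d) := by
      intro d hd
      have e1 := hf d hd
      have e2 := hg d hd
      have e3 := hfg d hd
      have hfa : 0 < a / f d := Nat.div_pos (Nat.le_of_dvd ha e1) (Nat.pos_of_dvd_of_pos e1 ha)
      have hgb : 0 < b / g d := Nat.div_pos (Nat.le_of_dvd hb e2) (Nat.pos_of_dvd_of_pos e2 hb)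
      have e4 : a * b / d = (a / f d) * (b / g d) := by
        conv_lhs => rw [e3]
        rw [Nat.div_mul_div_comm e1 e2]
      rw [e4]
      exact ih _ _ hfa hgb
    refine (Finset.sum_le_sum h1).trans ?_
    rw [Finset.sum_mul_sum, ← Finset.sum_product']
    have hinj : Set.InjOn (fun d => (f d, g d)) ((a * b).divisors : Set ℕ) := by
      intro d hd d' hd' h
      have e1 := hfg d hd
      have e2 := hfg d' hd'
      simp only [Prod.mk.injEq] at h
      rw [e1, e2, h.1, h.2]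
    have h2 : ∑ d ∈ (a * b).divisors, tk k (a / f d) * tk k (b / g d) =
        ∑ p ∈ ((a * b).divisors).image (fun d => (f d, g d)), tk k (a / p.1) * tk k (b / p.2) := by
      rw [Finset.sum_image hinj]
    rw [h2]
    apply Finset.sum_le_sum_of_subset
    intro p hp
    obtain ⟨d, hd, rfl⟩ := Finset.mem_image.1 hp
    rw [Finset.mem_product, Nat.mem_divisors, Nat.mem_divisors]
    exact ⟨⟨hf d hd, by omega⟩, ⟨hg d hd, by omega⟩⟩

/-- A sum over `m` and the divisors of `m`. -/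
theorem sum_div_le (H : ℕ) (F : ℕ → ℕ → ℝ) (hF : ∀ d n, 0 ≤ F d n) :
    ∑ m ∈ Icc 1 H, ∑ d ∈ m.divisors, F d (m / d) ≤ ∑ d ∈ Icc 1 H, ∑ n ∈ Icc 1 H, F d n := by
  rw [← Finset.sum_product', Finset.sum_sigma']
  have hinj : Set.InjOn (fun p : (_ : ℕ) × ℕ => (p.2, p.1 / p.2))
      ((Icc 1 H).sigma (fun m => m.divisors) : Finset ((_ : ℕ) × ℕ)) := by
    intro p hp q hq h
    obtain ⟨m, d⟩ := p
    obtain ⟨m', d'⟩ := q
    rw [Finset.mem_coe, Finset.mem_sigma] at hp hq
    have h3 := Nat.dvd_of_mem_divisors hp.2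
    have h3' := Nat.dvd_of_mem_divisors hq.2
    simp only [Prod.mk.injEq] at h
    obtain ⟨rfl, h5⟩ := h
    simp only at h3 h3'
    have h6 : m = m' := by
      rw [← Nat.div_mul_cancel h3, h5, Nat.div_mul_cancel h3']
    subst h6
    rfl
  have h1 : ∑ p ∈ (Icc 1 H).sigma (fun m => m.divisors), F p.2 (p.1 / p.2) =
      ∑ q ∈ ((Icc 1 H).sigma (fun m => m.divisors)).image
        (fun p : (_ : ℕ) × ℕ => (p.2, p.1 / p.2)), F q.1 q.2 := by
    rw [Finset.sum_image hinj]
  rw [h1]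
  apply Finset.sum_le_sum_of_subset_of_nonneg
  · intro q hq
    obtain ⟨⟨m, d⟩, hp, rfl⟩ := Finset.mem_image.1 hq
    rw [Finset.mem_sigma] at hp
    obtain ⟨h1, h2⟩ := hp
    simp only at h1 h2
    rw [Finset.mem_Icc] at h1
    have h3 := Nat.dvd_of_mem_divisors h2
    have h4 := Nat.le_of_dvd (by omega) h3
    have h5 := Nat.pos_of_dvd_of_pos h3 (by omega)
    rw [Finset.mem_product, Finset.mem_Icc, Finset.mem_Icc]
    refine ⟨⟨h5, by simp only; omega⟩, ⟨Nat.div_pos h4 h5, (Nat.div_le_self _ _).trans h1.2⟩⟩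
  · intro q _ _
    exact hF _ _

/-- Moments with a submultiplicative function. -/
theorem moment (H : ℕ) (g : ℕ → ℝ) (hg0 : ∀ n, 0 ≤ g n) (hg1 : g 1 ≤ 1)
    (hg : ∀ a b : ℕ, 1 ≤ a → 1 ≤ b → g (a * b) ≤ g a * g b) (j : ℕ) :
    ∑ m ∈ Icc 1 H, (tk j m : ℝ) * g m / m ≤ (∑ m ∈ Icc 1 H, g m / m) ^ j := by
  induction j with
  | zero =>
    rw [pow_zero]
    have h1 : ∀ m ∈ Icc 1 H, (tk 0 m : ℝ) * g m / m = if m = 1 then g 1 else 0 := by
      intro m _
      unfold tk
      by_cases h : m = 1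
      · subst h
        simp
      · simp [h]
    rw [Finset.sum_congr rfl h1, Finset.sum_ite_eq']
    split
    · exact hg1
    · norm_num
  | succ j ih =>
    have h1 : ∀ m ∈ Icc 1 H, (tk (j + 1) m : ℝ) * g m / m ≤
        ∑ d ∈ m.divisors, g d / d * ((tk j (m / d) : ℝ) * g (m / d) / ((m / d : ℕ) : ℝ)) := by
      intro m hm
      have hm1 := (Finset.mem_Icc.1 hm).1
      have e1 : (tk (j + 1) m : ℝ) * g m / m = ∑ d ∈ m.divisors, (tk j (m / d) : ℝ) * g m / m := by
        rw [← Finset.sum_div, ← Finset.sum_mul]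
        have e0 : tk (j + 1) m = ∑ d ∈ m.divisors, tk j (m / d) := rfl
        rw [e0, Nat.cast_sum]
      rw [e1]
      refine Finset.sum_le_sum fun d hd => ?_
      have h3 := Nat.dvd_of_mem_divisors hd
      have h5 := Nat.pos_of_dvd_of_pos h3 (by omega)
      have h6 : 1 ≤ m / d := Nat.div_pos (Nat.le_of_dvd (by omega) h3) h5
      have h7 : g m ≤ g d * g (m / d) := by
        have := hg d (m / d) h5 h6
        rwa [Nat.mul_div_cancel' h3] at this
      have h8 : (m : ℝ) = (d : ℝ) * ((m / d : ℕ) : ℝ) := by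
        have := Nat.mul_div_cancel' h3
        exact_mod_cast this.symm
      have hd0 : (0 : ℝ) < d := by exact_mod_cast h5
      have hmd0 : (0 : ℝ) < ((m / d : ℕ) : ℝ) := by exact_mod_cast h6
      have e2 : g d / d * ((tk j (m / d) : ℝ) * g (m / d) / ((m / d : ℕ) : ℝ)) =
          (tk j (m / d) : ℝ) * (g d * g (m / d)) / ((d : ℝ) * ((m / d : ℕ) : ℝ)) := by
        field_simp
      rw [e2, ← h8]
      apply div_le_div_of_nonneg_right _ (Nat.cast_nonneg m)
      exact mul_le_mul_of_nonneg_left h7 (Nat.cast_nonneg _)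
    refine (Finset.sum_le_sum h1).trans ?_
    refine (sum_div_le H (fun d n => g d / d * ((tk j n : ℝ) * g n / (n : ℝ))) (fun d n => ?_)).trans
      ?_
    · have := hg0 d
      have := hg0 n
      positivity
    · have e3 : ∑ d ∈ Icc 1 H, ∑ n ∈ Icc 1 H, g d / d * ((tk j n : ℝ) * g n / (n : ℝ)) =
          (∑ d ∈ Icc 1 H, g d / d) * ∑ n ∈ Icc 1 H, (tk j n : ℝ) * g n / (n : ℝ) := by
        rw [Finset.sum_mul_sum]
      rw [e3, pow_succ, mul_comm]
      apply mul_le_mul_of_nonneg_right ih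
      exact Finset.sum_nonneg fun d _ => by
        have := hg0 d
        positivity

theorem harm_le (H : ℕ) (hH : 1 ≤ H) : ∑ m ∈ Icc 1 H, 1 / (m : ℝ) ≤ 1 + Real.log H := by
  have _ := hH
  have h := harmonic_le_one_add_log H
  rw [harmonic_eq_sum_Icc] at h
  push_cast at h
  simpa [one_div] using h

/-- The second moment of the divisor function. -/
theorem tk_sq (k H : ℕ) (hH : 1 ≤ H) :
    ∑ m ∈ Icc 1 H, (tk k m : ℝ) ^ 2 ≤ H * (1 + Real.log H) ^ (k * k) := by
  have hlog : 0 ≤ Real.log H := Real.log_nonneg (by exact_mod_cast hH)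
  have h1 := moment H (fun _ => 1) (fun _ => zero_le_one) le_rfl
    (fun _ _ _ _ => by norm_num) k
  have h2 := moment H (fun m => (tk k m : ℝ)) (fun _ => Nat.cast_nonneg _)
    (by rw [tk_one]; norm_num) (fun a b ha hb => by exact_mod_cast tk_mul_le k a b ha hb) k
  have h3 : ∑ m ∈ Icc 1 H, (tk k m : ℝ) / m ≤ (1 + Real.log H) ^ k := by
    refine le_trans (le_of_eq ?_) (h1.trans (pow_le_pow_left₀ (Finset.sum_nonneg fun m _ => by
      positivity) (harm_le H hH) k))
    exact Finset.sum_congr rfl fun m _ => by rw [mul_one]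
  have h4 : ∑ m ∈ Icc 1 H, (tk k m : ℝ) * (tk k m : ℝ) / m ≤ (1 + Real.log H) ^ (k * k) := by
    refine h2.trans ?_
    rw [pow_mul]
    exact pow_le_pow_left₀ (Finset.sum_nonneg fun m _ => by positivity) h3 k
  have h5 : ∑ m ∈ Icc 1 H, (tk k m : ℝ) ^ 2 ≤
      H * ∑ m ∈ Icc 1 H, (tk k m : ℝ) * (tk k m : ℝ) / m := by
    rw [Finset.mul_sum]
    refine Finset.sum_le_sum fun m hm => ?_
    obtain ⟨hm1, hm2⟩ := Finset.mem_Icc.1 hm
    have hm0 : (0 : ℝ) < m := by exact_mod_cast hm1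
    have hmH : (m : ℝ) ≤ H := by exact_mod_cast hm2
    rw [← mul_div_assoc, le_div_iff₀ hm0]
    have : 0 ≤ (tk k m : ℝ) * (tk k m : ℝ) := by positivity
    nlinarith
  exact h5.trans (mul_le_mul_of_nonneg_left h4 (Nat.cast_nonneg _))

end Pool.Agent.NC.Wy
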