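import Pool.Agent.Lib.MP_1e1427_nt.SP.W1
import Pool.Agent.Lib.MP_1e1427_nt.SP.W3
import Pool.Agent.Lib.MP_0da313_nt.NC.Wy.Tau

set_option autoImplicit false

/-!
Project NC, Weyl sums: differencing.
-/

namespace Pool.Agent.NC.Wy

open Finset Polynomial
open Pool.Agent.SP80 (ex mn)

theorem norm_ex (x : ℝ) : ‖ex x‖ = 1 := by
  unfold SP80.ex
  exact Complex.norm_exp_ofReal_mul_I _

theorem ex_add (x y : ℝ) : ex (x + y) = ex x * ex y := by
  unfold SP80.ex
  rw [← Complex.exp_add]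
  congr 1
  push_cast
  ring

theorem conj_ex (x : ℝ) : (starRingEnd ℂ) (ex x) = ex (-x) := by
  unfold SP80.ex
  rw [← Complex.exp_conj, map_mul, Complex.conj_ofReal, Complex.conj_I]
  congr 1
  push_cast
  ring

theorem mn_mono {H H' : ℝ} (h : H ≤ H') (x : ℝ) : mn H x ≤ mn H' x := by
  unfold SP80.mn
  split_ifs
  · exact h
  · exact min_le_min_right _ h

theorem mn_nonneg {H : ℝ} (h : 0 ≤ H) (x : ℝ) : 0 ≤ mn H x := by
  unfold SP80.mn
  split_ifs
  · exact h
  · exact le_min h (by positivity)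

theorem mn_le (H x : ℝ) : mn H x ≤ H := by
  unfold SP80.mn
  split_ifs
  · exact le_rfl
  · exact min_le_left _ _

/-- Splitting a double sum by the difference. -/
theorem split_sum (f : ℕ → ℕ → ℂ) (H : ℕ) :
    ∑ i ∈ range H, ∑ j ∈ range H, f i j = ∑ i ∈ range H, f i i +
      ∑ u ∈ Ico 1 H, ∑ j ∈ range (H - u), (f (j + u) j + f j (j + u)) := by
  induction H with
  | zero => simp
  | succ H ih =>
    have e1 : ∑ i ∈ range (H + 1), ∑ j ∈ range (H + 1), f i j =
        ∑ i ∈ range H, ∑ j ∈ range H, f i j + ∑ i ∈ range H, (f H i + f i H) + f H H := by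
      rw [sum_range_succ, sum_range_succ]
      simp_rw [sum_range_succ]
      rw [sum_add_distrib, sum_add_distrib]
      ring
    have e2 : ∑ u ∈ Ico 1 (H + 1), ∑ j ∈ range (H + 1 - u), (f (j + u) j + f j (j + u)) =
        ∑ u ∈ Ico 1 H, ∑ j ∈ range (H - u), (f (j + u) j + f j (j + u)) +
          ∑ i ∈ range H, (f H i + f i H) := by
      have e3 : ∑ u ∈ Ico 1 (H + 1), ∑ j ∈ range (H + 1 - u), (f (j + u) j + f j (j + u)) =
          ∑ u ∈ Ico 1 (H + 1), (∑ j ∈ range (H - u), (f (j + u) j + f j (j + u)) +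
            (f H (H - u) + f (H - u) H)) := by
        refine sum_congr rfl fun u hu => ?_
        rw [mem_Ico] at hu
        have : H + 1 - u = (H - u) + 1 := by omega
        rw [this, sum_range_succ]
        have h2 : H - u + u = H := by omega
        rw [h2]
      rw [e3, sum_add_distrib]
      congr 1
      · rcases Nat.eq_zero_or_pos H with h0 | h0
        · subst h0; simp
        · rw [sum_Ico_succ_top (by omega)]
          simp
      · rw [← sum_range_reflect, sum_Ico_eq_sum_range]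
        refine sum_congr (by simp) fun i hi => ?_
        rw [mem_range] at hi
        have : H - (1 + i) = H - 1 - i := by omega
        rw [this]
    rw [e1, e2, ih, sum_range_succ]
    ring

/-- One step of the differencing. -/
theorem diff_one (f : ℕ → ℝ) (u : ℕ) :
    ‖∑ y ∈ range u, ex (f y)‖ ^ 2 ≤
      2 * ∑ h ∈ range u, ‖∑ y ∈ range (u - h), ex (f (y + h) - f y)‖ := by
  rcases Nat.eq_zero_or_pos u with h0 | h0
  · subst h0
    simp
  have h1 : ((‖∑ y ∈ range u, ex (f y)‖ ^ 2 : ℝ) : ℂ) =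
      ∑ i ∈ range u, ∑ j ∈ range u, ex (f i) * (starRingEnd ℂ) (ex (f j)) := by
    rw [← Complex.normSq_eq_norm_sq, ← Complex.mul_conj, map_sum, Finset.sum_mul_sum]
  have h2 := split_sum (fun i j => ex (f i) * (starRingEnd ℂ) (ex (f j))) u
  have hterm : ∀ i j : ℕ, ex (f i) * (starRingEnd ℂ) (ex (f j)) = ex (f i - f j) := by
    intro i j
    rw [conj_ex, ← ex_add, sub_eq_add_neg]
  have h3 : ‖∑ i ∈ range u, ex (f i) * (starRingEnd ℂ) (ex (f i))‖ ≤
      ‖∑ y ∈ range (u - 0), ex (f (y + 0) - f y)‖ := by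
    apply le_of_eq
    congr 1
    rw [Nat.sub_zero]
    exact Finset.sum_congr rfl fun i _ => by rw [hterm, add_zero]
  have h4 : ∀ h ∈ Ico 1 u, ‖∑ j ∈ range (u - h), (ex (f (j + h)) * (starRingEnd ℂ) (ex (f j)) +
      ex (f j) * (starRingEnd ℂ) (ex (f (j + h))))‖ ≤
      2 * ‖∑ y ∈ range (u - h), ex (f (y + h) - f y)‖ := by
    intro h _
    rw [Finset.sum_add_distrib]
    have e1 : ∑ j ∈ range (u - h), ex (f (j + h)) * (starRingEnd ℂ) (ex (f j)) =
        ∑ y ∈ range (u - h), ex (f (y + h) - f y) :=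
      Finset.sum_congr rfl fun i _ => hterm _ _
    have e2 : ∑ j ∈ range (u - h), ex (f j) * (starRingEnd ℂ) (ex (f (j + h))) =
        (starRingEnd ℂ) (∑ y ∈ range (u - h), ex (f (y + h) - f y)) := by
      rw [map_sum]
      refine Finset.sum_congr rfl fun i _ => ?_
      rw [hterm, conj_ex]
      congr 1
      ring
    rw [e1, e2]
    refine (norm_add_le _ _).trans (le_of_eq ?_)
    rw [RCLike.norm_conj]
    ring
  have h5 : ‖∑ y ∈ range u, ex (f y)‖ ^ 2 =
      ‖((‖∑ y ∈ range u, ex (f y)‖ ^ 2 : ℝ) : ℂ)‖ := by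
    rw [Complex.norm_real, Real.norm_of_nonneg (sq_nonneg _)]
  rw [h5, h1, h2]
  have h6 : ∑ h ∈ range u, ‖∑ y ∈ range (u - h), ex (f (y + h) - f y)‖ =
      ‖∑ y ∈ range (u - 0), ex (f (y + 0) - f y)‖ +
        ∑ h ∈ Ico 1 u, ‖∑ y ∈ range (u - h), ex (f (y + h) - f y)‖ := by
    rw [Finset.range_eq_Ico, Finset.sum_eq_sum_Ico_succ_bot h0]
  rw [h6]
  refine (norm_add_le _ _).trans ?_
  have h7 := (norm_sum_le (Ico 1 u) (fun h => ∑ j ∈ range (u - h),
    (ex (f (j + h)) * (starRingEnd ℂ) (ex (f j)) +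
      ex (f j) * (starRingEnd ℂ) (ex (f (j + h)))))).trans (Finset.sum_le_sum h4)
  rw [← Finset.mul_sum] at h7
  have h8 := norm_nonneg (∑ y ∈ range (u - 0), ex (f (y + 0) - f y))
  linarith

/-- `WP k θ f`: iterated differences of `f` behave as those of a polynomial of degree `k + 1` with leading
coefficient `θ`. -/
def WP : ℕ → ℝ → (ℕ → ℝ) → Prop
  | 0, θ, f => ∃ γ : ℝ, ∀ y : ℕ, f y = y * θ + γ
  | (k + 1), θ, f => ∀ h : ℕ, WP k ((k + 2) * h * θ) (fun y => f (y + h) - f y)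

theorem wp_poly (k : ℕ) : ∀ f : ℝ[X], f.natDegree ≤ k + 1 →
    WP k (f.coeff (k + 1)) (fun y => f.eval (y : ℝ)) := by
  induction k with
  | zero =>
    intro f hf
    refine ⟨f.coeff 0, fun y => ?_⟩
    have h := Polynomial.eq_X_add_C_of_natDegree_le_one (p := f) (by simpa using hf)
    conv_lhs => rw [h]
    simp
    ring
  | succ k ih =>
    intro f hf h
    set g : ℝ[X] := Polynomial.taylor (h : ℝ) f - f with hg
    have hc : ∀ n, g.coeff n = (Polynomial.hasseDeriv n f).eval (h : ℝ) - f.coeff n := by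
      intro n
      rw [hg, Polynomial.coeff_sub, Polynomial.taylor_coeff]
    have hhd : ∀ n m, n + m > k + 2 → (Polynomial.hasseDeriv n f).coeff m = 0 := by
      intro n m hnm
      rw [Polynomial.hasseDeriv_coeff, Polynomial.coeff_eq_zero_of_natDegree_lt (by omega),
        mul_zero]
    have hev : ∀ n, k + 1 ≤ n → (Polynomial.hasseDeriv n f).eval (h : ℝ) =
        f.coeff n + ((n + 1 : ℕ) : ℝ) * f.coeff (n + 1) * h := by
      intro n hn
      have h1 : (Polynomial.hasseDeriv n f).natDegree ≤ 1 := by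
        rw [Polynomial.natDegree_le_iff_coeff_eq_zero]
        intro m hm
        exact hhd n m (by omega)
      have h2 := Polynomial.eq_X_add_C_of_natDegree_le_one h1
      rw [h2]
      simp only [Polynomial.eval_add, Polynomial.eval_mul, Polynomial.eval_C, Polynomial.eval_X,
        Polynomial.hasseDeriv_coeff]
      have h3 : (1 + n).choose n = n + 1 := by
        rw [add_comm, Nat.choose_succ_self_right]
      have h4 : (0 + n).choose n = 1 := by
        rw [zero_add, Nat.choose_self]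
      rw [h3, h4, zero_add, add_comm 1 n]
      push_cast
      ring
    have hgd : g.natDegree ≤ k + 1 := by
      rw [Polynomial.natDegree_le_iff_coeff_eq_zero]
      intro n hn
      rw [hc, hev n (by omega), Polynomial.coeff_eq_zero_of_natDegree_lt (n := n + 1) (by omega)]
      ring
    have h1 := ih g hgd
    have h2 : g.coeff (k + 1) = ((k : ℝ) + 2) * h * f.coeff (k + 1 + 1) := by
      rw [hc, hev (k + 1) le_rfl]
      push_cast
      ring
    have h3 : (fun y : ℕ => g.eval (y : ℝ)) =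
        (fun y : ℕ => f.eval (((y + h : ℕ) : ℕ) : ℝ) - f.eval (y : ℝ)) := by
      funext y
      rw [hg, Polynomial.eval_sub, Polynomial.taylor_eval]
      push_cast
      rfl
    rw [h2, h3] at h1
    exact h1

/-- The multiple sum. -/
noncomputable def RR : ℕ → ℕ → ℝ → ℝ
  | 0, Y, x => mn Y x
  | (k + 1), Y, x => ∑ h ∈ range Y, RR k Y (h * x)

theorem RR_nonneg (k Y : ℕ) : ∀ x : ℝ, 0 ≤ RR k Y x := by
  induction k with
  | zero =>
    intro x
    exact mn_nonneg (Nat.cast_nonneg Y) x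
  | succ k ih =>
    intro x
    exact Finset.sum_nonneg fun h _ => ih _

/-- Weyl's differencing. -/
theorem weyl_diff (k : ℕ) : ∀ (θ : ℝ) (f : ℕ → ℝ), WP k θ f → ∀ Y u : ℕ, 1 ≤ Y → u ≤ Y →
    ‖∑ y ∈ range u, ex (f y)‖ ^ (2 ^ k) ≤
      2 ^ (2 ^ k - 1) * (Y : ℝ) ^ (2 ^ k - (k + 1)) * RR k Y (((k + 1).factorial : ℝ) * θ) := by
  induction k with
  | zero =>
    intro θ f hf Y u hY hu
    obtain ⟨γ, hγ⟩ := hf
    have h1 : ∑ y ∈ range u, ex (f y) = ex γ * ∑ y ∈ Ico 0 (0 + u), ex ((y : ℝ) * θ) := by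
      rw [Finset.mul_sum, zero_add, ← Finset.range_eq_Ico]
      refine Finset.sum_congr rfl fun y _ => ?_
      rw [hγ, ex_add, mul_comm]
    have h2 := SP80.sw1 0 u θ
    have h3 : mn (u : ℝ) θ ≤ mn (Y : ℝ) θ := mn_mono (by exact_mod_cast hu) θ
    rw [h1, norm_mul, norm_ex, one_mul]
    have h4 : (2 : ℝ) ^ (2 ^ 0 - 1) * (Y : ℝ) ^ (2 ^ 0 - (0 + 1)) *
        RR 0 Y (((0 + 1).factorial : ℝ) * θ) = mn Y θ := by
      simp [RR]
    rw [h4, pow_zero, pow_one]
    exact h2.trans h3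
  | succ k ih =>
    intro θ f hf Y u hY hu
    have hY0 : (0 : ℝ) < Y := by exact_mod_cast hY
    set s : ℕ → ℝ := fun h => ‖∑ y ∈ range (u - h), ex (f (y + h) - f y)‖ with hs
    have hs0 : ∀ h, 0 ≤ s h := fun h => norm_nonneg _
    have h1 : ‖∑ y ∈ range u, ex (f y)‖ ^ 2 ≤ 2 * ∑ h ∈ range Y, s h := by
      refine (diff_one f u).trans ?_
      apply mul_le_mul_of_nonneg_left _ (by norm_num)
      apply Finset.sum_le_sum_of_subset_of_nonneg
      · exact Finset.range_subset_range.2 hu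
      · intro h _ _
        exact hs0 h
    have h2 : ∀ h ∈ range Y, s h ^ (2 ^ k) ≤ 2 ^ (2 ^ k - 1) * (Y : ℝ) ^ (2 ^ k - (k + 1)) *
        RR k Y (h * (((k + 1 + 1).factorial : ℝ) * θ)) := by
      intro h _
      have e1 := ih ((k + 2) * h * θ) (fun y => f (y + h) - f y) (hf h) Y (u - h) hY (by omega)
      have e2 : ((k + 1).factorial : ℝ) * ((k + 2) * h * θ) =
          h * (((k + 1 + 1).factorial : ℝ) * θ) := by
        rw [Nat.factorial_succ (k + 1)]
        push_cast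
        ring
      rw [e2] at e1
      exact e1
    have hpow : 1 ≤ 2 ^ k := Nat.one_le_two_pow
    have hk2 : k + 1 ≤ 2 ^ k := Nat.lt_two_pow_self
    have h3 := pow_sum_div_card_le_sum_pow (s := range Y) (f := s) (fun h _ => hs0 h) (2 ^ k - 1)
    rw [Nat.sub_add_cancel hpow, card_range, div_le_iff₀ (by positivity)] at h3
    have h4 : ∑ h ∈ range Y, s h ^ (2 ^ k) ≤ 2 ^ (2 ^ k - 1) * (Y : ℝ) ^ (2 ^ k - (k + 1)) *
        RR (k + 1) Y (((k + 1 + 1).factorial : ℝ) * θ) := by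
      refine (Finset.sum_le_sum h2).trans (le_of_eq ?_)
      rw [← Finset.mul_sum]
      rfl
    have hS0 : 0 ≤ ∑ h ∈ range Y, s h := Finset.sum_nonneg fun h _ => hs0 h
    calc ‖∑ y ∈ range u, ex (f y)‖ ^ (2 ^ (k + 1))
        = (‖∑ y ∈ range u, ex (f y)‖ ^ 2) ^ (2 ^ k) := by
          rw [← pow_mul]
          congr 1
          ring
      _ ≤ (2 * ∑ h ∈ range Y, s h) ^ (2 ^ k) := pow_le_pow_left₀ (by positivity) h1 _
      _ = 2 ^ (2 ^ k) * (∑ h ∈ range Y, s h) ^ (2 ^ k) := mul_pow _ _ _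
      _ ≤ 2 ^ (2 ^ k) * ((2 ^ (2 ^ k - 1) * (Y : ℝ) ^ (2 ^ k - (k + 1)) *
        RR (k + 1) Y (((k + 1 + 1).factorial : ℝ) * θ)) * (Y : ℝ) ^ (2 ^ k - 1)) := by
          apply mul_le_mul_of_nonneg_left _ (by positivity)
          exact h3.trans (mul_le_mul_of_nonneg_right h4 (by positivity))
      _ = 2 ^ (2 ^ (k + 1) - 1) * (Y : ℝ) ^ (2 ^ (k + 1) - (k + 1 + 1)) *
          RR (k + 1) Y (((k + 1 + 1).factorial : ℝ) * θ) := by
          have e1 : (2 : ℝ) ^ (2 ^ k) * 2 ^ (2 ^ k - 1) = 2 ^ (2 ^ (k + 1) - 1) := by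
            rw [← pow_add]
            congr 1
            rw [pow_succ]
            omega
          have e2 : (Y : ℝ) ^ (2 ^ k - (k + 1)) * (Y : ℝ) ^ (2 ^ k - 1) =
              (Y : ℝ) ^ (2 ^ (k + 1) - (k + 1 + 1)) := by
            rw [← pow_add]
            congr 1
            rw [pow_succ]
            omega
          rw [← e1, ← e2]
          ring

end Pool.Agent.NC.Wy
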